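import Mathlib
import Pool.Agent.H18PC.Main

/-!
Groups all of whose bi-invariant metrics embed isometrically into metric ultraproducts of
finite groups (towards Pestov's question on the universal bi-invariant metric group).
-/

set_option autoImplicit false

namespace Pool.Agent.Results.MP_064e8c_al.AllMetrics

open H71MU Pool.Agent.H18PC

universe u

/-- Part 1: let `H` be a group such that every finitely generated subgroup `G` of `H` has a
normal subgroup `N` of finite index with `[[N, G], N] = 1` (for instance `H` of nilpotency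
class at most two, or virtually abelian, or locally finite).  Then for every bi-invariant
metric `ρ` on `H` the metric group `(H, ρ)` is isometrically isomorphic to a subgroup of a
metric ultraproduct of finite groups with bi-invariant metrics, and every finite subset `B`
of `H` has an exact model in a finite group with a bi-invariant metric.

Part 2: the same holds for every group `H` such that in all its finitely generated subgroups
the products of finitely many conjugacy classes are closed in the profinite topology. -/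
theorem result :
    (∀ (H : Type u) [Group H],
      (∀ S : Finset H, ∃ N : Subgroup (Subgroup.closure (S : Set H)),
        N.Normal ∧ N.FiniteIndex ∧
        ∀ n ∈ N, ∀ g : Subgroup.closure (S : Set H), ∀ m ∈ N,
          n * g * n⁻¹ * g⁻¹ * m = m * (n * g * n⁻¹ * g⁻¹)) →
      ∀ ρ : H → H → ℝ, BiMetric H ρ →
        EmbedsInFiniteUltraproduct H ρ ∧
        ∀ B : Finset H, ∃ (F : Type u) (_ : Group F) (_ : Finite F) (d : F → F → ℝ)
          (_ : BiMetric F d) (f : H → F), Set.InjOn f B ∧
          (∀ x ∈ B, ∀ y ∈ B, x * y ∈ B → f (x * y) = f x * f y) ∧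
          (∀ x ∈ B, ∀ y ∈ B, d (f x) (f y) = ρ x y)) ∧
    (∀ (H : Type u) [Group H], (∀ S : Finset H, PC (Subgroup.closure (S : Set H))) →
      ∀ ρ : H → H → ℝ, BiMetric H ρ →
        EmbedsInFiniteUltraproduct H ρ ∧
        ∀ B : Finset H, ∃ (F : Type u) (_ : Group F) (_ : Finite F) (d : F → F → ℝ)
          (_ : BiMetric F d) (f : H → F), Set.InjOn f B ∧
          (∀ x ∈ B, ∀ y ∈ B, x * y ∈ B → f (x * y) = f x * f y) ∧
          (∀ x ∈ B, ∀ y ∈ B, d (f x) (f y) = ρ x y)) := by
  have key : ∀ (H : Type u) [Group H],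
      (∀ S : Finset H, PC (Subgroup.closure (S : Set H))) →
      ∀ ρ : H → H → ℝ, BiMetric H ρ →
        EmbedsInFiniteUltraproduct H ρ ∧
        ∀ B : Finset H, ∃ (F : Type u) (_ : Group F) (_ : Finite F) (d : F → F → ℝ)
          (_ : BiMetric F d) (f : H → F), Set.InjOn f B ∧
          (∀ x ∈ B, ∀ y ∈ B, x * y ∈ B → f (x * y) = f x * f y) ∧
          (∀ x ∈ B, ∀ y ∈ B, d (f x) (f y) = ρ x y) := by
    intro H _ hPC ρ hρ
    refine ⟨embeds_of_PC hρ hPC, ?_⟩
    intro B
    obtain ⟨F, iF, finF, d, hd, f, -, h2, h3⟩ := local_of_PC hρ hPC B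
    refine ⟨F, iF, finF, d, hd, f, ?_, h2, h3⟩
    intro x hx y hy hxy
    have h4 := h3 x hx y hy
    rw [hxy, hd.self] at h4
    exact (hρ.eq_zero_iff x y).1 h4.symm
  refine ⟨?_, key⟩
  intro H _ hH ρ hρ
  refine key H ?_ ρ hρ
  intro S
  obtain ⟨N, h1, h2, h3⟩ := hH S
  have : Group.FG (Subgroup.closure (S : Set H)) :=
    (Group.fg_iff_subgroup_fg _).2 ⟨S, rfl⟩
  exact pc_of N h3

end Pool.Agent.Results.MP_064e8c_al.AllMetrics
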