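import Pool.Agent.H51MB.RatioW
import Pool.Agent.H51MB.Fp
import Pool.Agent.H51FG.Choice

/-!
Free groups and conjugacy separable groups with bi-invariant metrics of bounded ratio embed
isometrically into metric ultraproducts of finite groups.
-/

set_option autoImplicit false

namespace Pool.Agent.Results.MP_064e8c_al.BoundedRatio

open H71MU Pool.Agent.H18PC Pool.Agent.H51MB

universe u

/-- Every finite subset `B` of `H` has an exact model in a finite group with a bi-invariant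
metric. -/
def ExactModels (H : Type u) [Group H] (ρ : H → H → ℝ) : Prop :=
  ∀ B : Finset H, ∃ (F : Type u) (_ : Group F) (_ : Finite F) (d : F → F → ℝ)
    (_ : BiMetric F d) (f : H → F), Set.InjOn f B ∧
    (∀ x ∈ B, ∀ y ∈ B, x * y ∈ B → f (x * y) = f x * f y) ∧
    (∀ x ∈ B, ∀ y ∈ B, d (f x) (f y) = ρ x y)

/-- Every finite subset `B` of `H` has for every `ε > 0` a model in a finite group with a
bi-invariant metric in which the distances are right up to `ε` (the property in the last item of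
the problem file). -/
def ApproxModels (H : Type u) [Group H] (ρ : H → H → ℝ) : Prop :=
  ∀ (B : Finset H) (ε : ℝ), 0 < ε → ∃ (F : Type u) (_ : Group F) (_ : Finite F) (d : F → F → ℝ)
    (_ : BiMetric F d) (f : H → F), Set.InjOn f B ∧
    (∀ x ∈ B, ∀ y ∈ B, x * y ∈ B → f (x * y) = f x * f y) ∧
    (∀ x ∈ B, ∀ y ∈ B, |d (f x) (f y) - ρ x y| < ε)

/-- `G` is conjugacy separable up to inverses: if `x` is conjugate neither to `y` nor to `y⁻¹`,
some coset `x K` of a normal subgroup `K` of finite index contains no conjugate of `y` or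
`y⁻¹`. -/
def PmConjSeparable (G : Type u) [Group G] : Prop :=
  ∀ x y : G, ¬ IsConj x y → ¬ IsConj x y⁻¹ →
    ∃ K : Subgroup G, K.Normal ∧ K.FiniteIndex ∧ ∀ κ ∈ K, ¬ IsConj (x * κ) y ∧
      ¬ IsConj (x * κ) y⁻¹

theorem sep_one {G : Type u} [Group G] {ρ : G → G → ℝ} (hρ : BiMetric G ρ)
    (h : PmConjSeparable G) : Sep 1 G ρ := by
  intro as has x hx
  match as, has with
  | [], _ =>
    have hx1 : x ≠ 1 := by
      rintro rfl
      rw [hρ.self] at hx
      simp at hx
    obtain ⟨K, h1, h2, h3⟩ := h x 1 (fun e => hx1 (isConj_one_left.1 e))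
      (fun e => hx1 (by rw [inv_one] at e; exact isConj_one_left.1 e))
    refine ⟨K, h1, h2, fun κ hκ e => (h3 κ hκ).1 ?_⟩
    have e1 : x * κ = 1 := e
    rw [e1]
  | [a], _ =>
    have hsum : ρ a 1 < ρ x 1 := by simpa using hx
    have hc : ∀ y : G, y ∈ conjProd [a] → IsConj y a := by
      intro y
      rintro ⟨g, z, hz, rfl⟩
      have hz1 : z = 1 := hz
      subst hz1
      rw [mul_one]
      exact (isConj_iff.2 ⟨g, rfl⟩ : IsConj a (g * a * g⁻¹)).symm
    have hn : ¬ IsConj x a := by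
      intro e
      obtain ⟨g, hg⟩ := isConj_iff.1 e.symm
      rw [← hg, hρ.conj] at hsum
      exact lt_irrefl _ hsum
    have hn' : ¬ IsConj x a⁻¹ := by
      intro e
      obtain ⟨g, hg⟩ := isConj_iff.1 e.symm
      rw [← hg, hρ.conj, hρ.inv_one] at hsum
      exact lt_irrefl _ hsum
    obtain ⟨K, h1, h2, h3⟩ := h x a hn hn'
    exact ⟨K, h1, h2, fun κ hκ e => (h3 κ hκ).1 (hc _ e)⟩
  | a :: b :: l, has => exact absurd has (by simp)

theorem pmConjSeparable_free (X : Type u) : PmConjSeparable (FreeGroup X) := by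
  intro x y h h'
  obtain ⟨Q, iQ, fQ, ψ, hψ⟩ := Pool.Agent.H51FG.free_sep x y h
  obtain ⟨Q', iQ', fQ', ψ', hψ'⟩ := Pool.Agent.H51FG.free_sep x y⁻¹ h'
  refine ⟨ψ.ker ⊓ ψ'.ker, inferInstance, inferInstance, fun κ hκ => ⟨fun e => ?_, fun e => ?_⟩⟩
  · obtain ⟨g, hg⟩ := isConj_iff.1 e
    apply hψ g
    rw [← hg]
    simp only [map_mul, map_inv, MonoidHom.mem_ker.1 hκ.1, mul_one]
  · obtain ⟨g, hg⟩ := isConj_iff.1 e
    apply hψ' g
    rw [← hg]
    simp only [map_mul, map_inv, MonoidHom.mem_ker.1 hκ.2, mul_one]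

theorem pmConjSeparable_top {H : Type u} [Group H] (h : PmConjSeparable H) :
    PmConjSeparable (⊤ : Subgroup H) := by
  have e : (⊤ : Subgroup H) ≃* H := Subgroup.topEquiv
  have key : ∀ x y : (⊤ : Subgroup H), ¬ IsConj x y → ¬ IsConj (e x) (e y) := by
    intro x y hxy h
    apply hxy
    have := (e.symm : H →* (⊤ : Subgroup H)).map_isConj h
    simpa using this
  intro x y hxy hxy'
  obtain ⟨K, h1, h2, h3⟩ := h (e x) (e y) (key _ _ hxy) (by
    rw [← map_inv]; exact key _ _ hxy')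
  refine ⟨K.comap (e : (⊤ : Subgroup H) →* H), inferInstance, ?_,
    fun κ hκ => ⟨fun h => (h3 (e κ) hκ).1 ?_, fun h => (h3 (e κ) hκ).2 ?_⟩⟩
  · constructor
    rw [Subgroup.index_comap_of_surjective K e.surjective]
    exact h2.index_ne_zero
  · have := (e : (⊤ : Subgroup H) →* H).map_isConj h
    simpa using this
  · have := (e : (⊤ : Subgroup H) →* H).map_isConj h
    simpa using this

theorem general (k : ℕ) (H : Type u) [Group H] (ρ : H → H → ℝ) (hρ : BiMetric H ρ)
    (hH : ∀ S : Finset H, ∃ G : Subgroup H, (∀ s ∈ S, s ∈ G) ∧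
      Sep k G (fun x y => ρ (x : H) (y : H)))
    (hc : ∃ c : ℝ, ∀ x y : H, x ≠ y → c ≤ ρ x y ∧ ρ x y ≤ (k + 1) * c) :
    EmbedsInFiniteUltraproduct H ρ ∧ ExactModels H ρ := by
  obtain ⟨c, hc⟩ := hc
  have hr : ∀ x y : H, x ≠ 1 → y ≠ 1 → ρ x 1 ≤ (k + 1) * ρ y 1 := by
    intro x y hx hy
    have h1 := (hc x 1 hx).2
    have h2 := (hc y 1 hy).1
    have h3 : ((k : ℝ) + 1) * c ≤ (k + 1) * ρ y 1 :=
      mul_le_mul_of_nonneg_left h2 (by positivity)
    linarith
  refine ⟨embeds_of_sep hρ hr hH, ?_⟩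
  intro B
  obtain ⟨F, iF, finF, d, hd, f, -, h2, h3⟩ := local_of_sep hρ hr hH B
  refine ⟨F, iF, finF, d, hd, f, ?_, h2, h3⟩
  intro x hx y hy hxy
  have h4 := h3 x hx y hy
  rw [hxy, hd.self] at h4
  exact (hρ.eq_zero_iff x y).1 h4.symm

theorem restr {H : Type u} [Group H] {ρ : H → H → ℝ} (hρ : BiMetric H ρ) (G : Subgroup H) :
    BiMetric G (fun x y => ρ (x : H) (y : H)) := by
  refine ⟨?_, ?_, ?_, ?_, ?_⟩
  · intro a b
    rw [hρ.eq_zero_iff]
    exact Subtype.ext_iff.symm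
  · intro a b; exact hρ.symm _ _
  · intro a b c; exact hρ.triangle _ _ _
  · intro g a b; exact hρ.left _ _ _
  · intro g a b; exact hρ.right _ _ _

open Classical in
/-- The metric with value `1` on the conjugates of `y` and `y⁻¹`, and value `2` elsewhere. -/
noncomputable def dy {H : Type u} [Group H] (y a b : H) : ℝ :=
  if a = b then 0 else if IsConj (a * b⁻¹) y ∨ IsConj (a * b⁻¹) y⁻¹ then 1 else 2

theorem dy_self {H : Type u} [Group H] (y a : H) : dy y a a = 0 := if_pos rfl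

theorem dy_ne {H : Type u} [Group H] (y : H) {a b : H} (h : a ≠ b) :
    dy y a b = 1 ∨ dy y a b = 2 := by
  unfold dy
  rw [if_neg h]
  split_ifs
  · exact Or.inl rfl
  · exact Or.inr rfl

theorem dy_congr {H : Type u} [Group H] (y : H) {a b a' b' : H} (h : a = b ↔ a' = b')
    (h' : (IsConj (a * b⁻¹) y ∨ IsConj (a * b⁻¹) y⁻¹) ↔
      (IsConj (a' * b'⁻¹) y ∨ IsConj (a' * b'⁻¹) y⁻¹)) : dy y a b = dy y a' b' := by
  unfold dy
  by_cases hab : a = b
  · rw [if_pos hab, if_pos (h.1 hab)]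
  · rw [if_neg hab, if_neg (fun e => hab (h.2 e))]
    by_cases hc : IsConj (a * b⁻¹) y ∨ IsConj (a * b⁻¹) y⁻¹
    · rw [if_pos hc, if_pos (h'.1 hc)]
    · rw [if_neg hc, if_neg (fun e => hc (h'.2 e))]

theorem isConj_inv_iff {H : Type u} [Group H] {a b : H} : IsConj a⁻¹ b ↔ IsConj a b⁻¹ := by
  constructor
  · intro h
    obtain ⟨g, hg⟩ := isConj_iff.1 h
    exact isConj_iff.2 ⟨g, by rw [← hg]; group⟩
  · intro h
    obtain ⟨g, hg⟩ := isConj_iff.1 h
    exact isConj_iff.2 ⟨g, by rw [← inv_inv b, ← hg]; group⟩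

theorem dy_biMetric {H : Type u} [Group H] (y : H) : BiMetric H (dy y) := by
  refine ⟨?_, ?_, ?_, ?_, ?_⟩
  · intro a b
    constructor
    · intro h
      by_contra hne
      rcases dy_ne y hne with h1 | h1 <;> rw [h1] at h <;> norm_num at h
    · rintro rfl
      exact dy_self y a
  · intro a b
    apply dy_congr y eq_comm
    have e : b * a⁻¹ = (a * b⁻¹)⁻¹ := by group
    rw [e, isConj_inv_iff, isConj_inv_iff, inv_inv]
    exact or_comm
  · intro a b c
    by_cases h1 : a = b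
    · subst h1
      rw [dy_self, zero_add]
    · by_cases h2 : b = c
      · subst h2
        rw [dy_self, add_zero]
      · by_cases h3 : a = c
        · subst h3
          rw [dy_self]
          rcases dy_ne y h1 with h | h <;> rcases dy_ne y h2 with h' | h' <;> rw [h, h'] <;>
            norm_num
        · rcases dy_ne y h1 with h | h <;> rcases dy_ne y h2 with h' | h' <;>
            rcases dy_ne y h3 with h'' | h'' <;> rw [h, h', h''] <;> norm_num
  · intro g a b
    apply dy_congr y (mul_right_inj g)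
    have e : g * a * (g * b)⁻¹ = g * (a * b⁻¹) * g⁻¹ := by group
    have h1 : IsConj (g * (a * b⁻¹) * g⁻¹) (a * b⁻¹) :=
      (isConj_iff.2 ⟨g, rfl⟩ : IsConj (a * b⁻¹) (g * (a * b⁻¹) * g⁻¹)).symm
    rw [e]
    exact or_congr ⟨fun h => h1.symm.trans h, fun h => h1.trans h⟩
      ⟨fun h => h1.symm.trans h, fun h => h1.trans h⟩
  · intro g a b
    apply dy_congr y (mul_left_inj g)
    have e : a * g * (b * g)⁻¹ = a * b⁻¹ := by group
    rw [e]

theorem conj_of_approx {H : Type u} [Group H] (hH : Group.IsFinitelyPresented H)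
    (h : ∀ ρ : H → H → ℝ, BiMetric H ρ → (∀ x y : H, ρ x y = 0 ∨ ρ x y = 1 ∨ ρ x y = 2) →
      ApproxModels H ρ) : PmConjSeparable H := by
  classical
  intro x y hxy hxy'
  have hv : ∀ a b : H, dy y a b = 0 ∨ dy y a b = 1 ∨ dy y a b = 2 := by
    intro a b
    by_cases hab : a = b
    · subst hab
      exact Or.inl (dy_self y a)
    · exact Or.inr (dy_ne y hab)
  obtain ⟨B, hAB, h1B, hB⟩ := extend hH ({x, y} : Finset H)
  obtain ⟨F, iF, finF, d, hd, f, -, hf, hdf⟩ := h (dy y) (dy_biMetric y) hv B (1 / 2) (by norm_num)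
  obtain ⟨ψ, hψ⟩ := hB F f hf
  have hxB : x ∈ B := hAB (by simp)
  have hyB : y ∈ B := hAB (by simp)
  have hf1 : f 1 = 1 := by
    have := hf 1 h1B 1 h1B (by rwa [one_mul])
    rw [one_mul] at this
    exact (mul_eq_left.1 this.symm)
  have hx1 := hdf x hxB 1 h1B
  have hy1 := hdf y hyB 1 h1B
  rw [hf1, ← hψ x (by simp)] at hx1
  rw [hf1, ← hψ y (by simp)] at hy1
  have hne : d (ψ x) 1 ≠ d (ψ y) 1 := by
    intro he
    rw [he] at hx1
    have h3 : |dy y x 1 - dy y y 1| < 1 := by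
      have h4 := abs_sub_lt_iff.1 hx1
      have h5 := abs_sub_lt_iff.1 hy1
      rw [abs_sub_lt_iff]
      constructor <;> linarith [h4.1, h4.2, h5.1, h5.2]
    by_cases hx : x = 1
    · subst hx
      have hy : y ≠ 1 := fun e => hxy (by rw [e])
      rw [dy_self] at h3
      rcases dy_ne y hy with h4 | h4 <;> rw [h4] at h3 <;> norm_num at h3
    · have h4 : dy y x 1 = 2 := by
        unfold dy
        rw [if_neg hx, inv_one, mul_one, if_neg (not_or.2 ⟨hxy, hxy'⟩)]
      have h5 : dy y y 1 ≤ 1 := by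
        unfold dy
        split_ifs with h6 h7
        · norm_num
        · norm_num
        · exact absurd (Or.inl (by rw [inv_one, mul_one])) h7
      rw [h4, abs_sub_lt_iff] at h3
      linarith [h3.1]
  refine ⟨ψ.ker, inferInstance, inferInstance, fun κ hκ => ⟨fun e => hne ?_, fun e => hne ?_⟩⟩
  · obtain ⟨g, hg⟩ := isConj_iff.1 (ψ.map_isConj e)
    rw [map_mul, MonoidHom.mem_ker.1 hκ, mul_one] at hg
    rw [← hg, hd.conj]
  · obtain ⟨g, hg⟩ := isConj_iff.1 (ψ.map_isConj e)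
    rw [map_mul, MonoidHom.mem_ker.1 hκ, mul_one, map_inv] at hg
    rw [← hd.inv_one (ψ y), ← hg, hd.conj]

/-- (1) Every free group with every bi-invariant metric whose values at pairs of different
elements lie in some interval `[c, 2 c]` is isometrically isomorphic to a subgroup of a metric
ultraproduct of finite groups, and every finite subset has an exact finite model.

(2) The same for every group in which every finite subset lies in a subgroup which is conjugacy
separable up to inverses.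

(3) A finitely presented group is conjugacy separable up to inverses if and only if all these
metrics have exact finite models, and if and only if all bi-invariant metrics with values in
`{0, 1, 2}` have approximate finite models.

(4) The same as (2) for intervals `[c, (k + 1) c]` and groups in which every finite subset lies in
a subgroup all of whose products of at most `k` conjugacy classes are closed in the profinite
topology. -/
theorem result :
    (∀ (X : Type u) (ρ : FreeGroup X → FreeGroup X → ℝ), BiMetric (FreeGroup X) ρ →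
      (∃ c : ℝ, ∀ x y : FreeGroup X, x ≠ y → c ≤ ρ x y ∧ ρ x y ≤ 2 * c) →
      EmbedsInFiniteUltraproduct (FreeGroup X) ρ ∧ ExactModels (FreeGroup X) ρ) ∧
    (∀ (H : Type u) [Group H],
      (∀ S : Finset H, ∃ G : Subgroup H, (∀ s ∈ S, s ∈ G) ∧ PmConjSeparable G) →
      ∀ ρ : H → H → ℝ, BiMetric H ρ →
      (∃ c : ℝ, ∀ x y : H, x ≠ y → c ≤ ρ x y ∧ ρ x y ≤ 2 * c) →
      EmbedsInFiniteUltraproduct H ρ ∧ ExactModels H ρ) ∧
    (∀ (H : Type u) [Group H], Group.IsFinitelyPresented H →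
      (PmConjSeparable H ↔ ∀ ρ : H → H → ℝ, BiMetric H ρ →
        (∃ c : ℝ, ∀ x y : H, x ≠ y → c ≤ ρ x y ∧ ρ x y ≤ 2 * c) → ExactModels H ρ) ∧
      (PmConjSeparable H ↔ ∀ ρ : H → H → ℝ, BiMetric H ρ →
        (∀ x y : H, ρ x y = 0 ∨ ρ x y = 1 ∨ ρ x y = 2) → ApproxModels H ρ)) ∧
    (∀ (k : ℕ) (H : Type u) [Group H],
      (∀ S : Finset H, ∃ G : Subgroup H, (∀ s ∈ S, s ∈ G) ∧ PCk k G) →
      ∀ ρ : H → H → ℝ, BiMetric H ρ →
      (∃ c : ℝ, ∀ x y : H, x ≠ y → c ≤ ρ x y ∧ ρ x y ≤ (k + 1) * c) →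
      EmbedsInFiniteUltraproduct H ρ ∧ ExactModels H ρ) := by
  have h2 : ∀ (H : Type u) [Group H],
      (∀ S : Finset H, ∃ G : Subgroup H, (∀ s ∈ S, s ∈ G) ∧ PmConjSeparable G) →
      ∀ ρ : H → H → ℝ, BiMetric H ρ →
      (∃ c : ℝ, ∀ x y : H, x ≠ y → c ≤ ρ x y ∧ ρ x y ≤ 2 * c) →
      EmbedsInFiniteUltraproduct H ρ ∧ ExactModels H ρ := by
    intro H _ hH ρ hρ ⟨c, hc⟩
    refine general 1 H ρ hρ (fun S => ?_) ⟨c, fun x y hxy => ?_⟩
    · obtain ⟨G, h1, h2⟩ := hH S
      exact ⟨G, h1, sep_one (restr hρ G) h2⟩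
    · obtain ⟨h1, h2⟩ := hc x y hxy
      refine ⟨h1, h2.trans (le_of_eq ?_)⟩
      push_cast
      ring
  have h3 : ∀ (H : Type u) [Group H], PmConjSeparable H → ∀ ρ : H → H → ℝ, BiMetric H ρ →
      (∃ c : ℝ, ∀ x y : H, x ≠ y → c ≤ ρ x y ∧ ρ x y ≤ 2 * c) →
      EmbedsInFiniteUltraproduct H ρ ∧ ExactModels H ρ := fun H _ hH =>
    h2 H (fun S => ⟨⊤, fun s _ => Subgroup.mem_top s, pmConjSeparable_top hH⟩)
  have h4 : ∀ (H : Type u) [Group H], (∀ ρ : H → H → ℝ, BiMetric H ρ →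
        (∃ c : ℝ, ∀ x y : H, x ≠ y → c ≤ ρ x y ∧ ρ x y ≤ 2 * c) → ExactModels H ρ) →
      ∀ ρ : H → H → ℝ, BiMetric H ρ →
        (∀ x y : H, ρ x y = 0 ∨ ρ x y = 1 ∨ ρ x y = 2) → ApproxModels H ρ := by
    intro H _ h ρ hρ hv B ε hε
    obtain ⟨F, iF, finF, d, hd, f, h5, h6, h7⟩ := h ρ hρ ⟨1, fun x y hxy => by
      have h8 : ρ x y ≠ 0 := fun h9 => hxy ((hρ.eq_zero_iff x y).1 h9)
      rcases hv x y with h9 | h9 | h9
      · exact absurd h9 h8
      · rw [h9]; norm_num
      · rw [h9]; norm_num⟩ B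
    refine ⟨F, iF, finF, d, hd, f, h5, h6, fun x hx y hy => ?_⟩
    rw [h7 x hx y hy, sub_self, abs_zero]
    exact hε
  refine ⟨fun X => h3 (FreeGroup X) (pmConjSeparable_free X), h2, ?_, ?_⟩
  · intro H _ hH
    refine ⟨⟨fun h ρ hρ hc => (h3 H h ρ hρ hc).2, fun h => ?_⟩,
      ⟨fun h => h4 H fun ρ hρ hc => (h3 H h ρ hρ hc).2, conj_of_approx hH⟩⟩
    exact conj_of_approx hH (h4 H h)
  · intro k H _ hH ρ hρ hc
    refine general k H ρ hρ (fun S => ?_) hc
    obtain ⟨G, h1, h2⟩ := hH S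
    exact ⟨G, h1, sep_of_PCk (restr hρ G) h2⟩

end Pool.Agent.Results.MP_064e8c_al.BoundedRatio
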