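import Mathlib
import Pool.Agent.H96MB.CovMet

/-!
A group with a bi-invariant metric embeds isometrically into a metric ultraproduct of finite
metabelian groups if and only if it is metabelian (towards Pestov's question on the universal
bi-invariant metric group); products of conjugacy classes are closed in the profinite topology
of a free metabelian group of finite rank.
-/

set_option autoImplicit false

namespace Pool.Agent.Results.MP_064e8c_al.MetabelianGroups

open H71MU Pool.Agent.H18PC Pool.Agent.H96MB

universe u

/-- Part 1: a group `H` with a bi-invariant metric `ρ` is isometrically isomorphic to a subgroup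
of a metric ultraproduct of finite metabelian groups with bi-invariant metrics if and only if `H`
is metabelian.

Part 2: for every finite `S` the free metabelian group on `S` (given by its universal property)
has the property that all products of finitely many conjugacy classes are closed in the
profinite topology.

Part 3 (the criterion): if every finite subset of `H` is contained in the image of a
homomorphism `W → H` from a group `W` in which the products of finitely many conjugacy classes
are closed in the profinite topology, then `H` with every bi-invariant metric is isometrically
isomorphic to a subgroup of a metric ultraproduct of finite groups with bi-invariant metrics. -/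
theorem result :
    (∀ (H : Type u) [Group H] (ρ : H → H → ℝ), BiMetric H ρ →
      (EmbedsInFiniteMetabelianUltraproduct H ρ ↔ Metabelian H)) ∧
    (∀ (S : Type u) [Finite S], ∃ (M : Type u) (_ : Group M) (e : S → M),
      Subgroup.closure (Set.range e) = ⊤ ∧ Metabelian M ∧
      (∀ (H : Type u) [Group H], Metabelian H → ∀ h : S → H, ∃ p : M →* H, ∀ s, p (e s) = h s) ∧
      PC M) ∧
    (∀ (H : Type u) [Group H],
      (∀ S : Finset H, ∃ (W : Type u) (_ : Group W) (p : W →* H),
        (∀ s ∈ S, s ∈ p.range) ∧ PC W) →
      ∀ ρ : H → H → ℝ, BiMetric H ρ → EmbedsInFiniteUltraproduct H ρ) := by
  refine ⟨?_, ?_, ?_⟩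
  · intro H _ ρ hρ
    exact ⟨metabelian_of_embeds, fun hH => embeds_met hH hρ⟩
  · intro S _
    exact ⟨MM (gam S), inferInstance, gen S, gen_top S, metabelian_MM S,
      fun H _ hH h => univ_MM S hH h, pc_MM S⟩
  · intro H _ hc ρ hρ
    exact embeds_of_cover hρ hc

end Pool.Agent.Results.MP_064e8c_al.MetabelianGroups
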