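import Mathlib
import Pool.Agent.H10UM.Equiv

/-!
For bi-invariant ultrametrics the isometric embedding into metric ultraproducts of finite groups
is a matter of weak soficity only (towards Pestov's question on the universal bi-invariant metric
group).
-/

set_option autoImplicit false

namespace Pool.Agent.Results.MP_064e8c_al.UltrametricGroups

open H71MU Pool.Agent.H10UM

universe u

/-- `ρ` is an ultrametric: it satisfies the strong triangle inequality. -/
def Ultra {H : Type u} (ρ : H → H → ℝ) : Prop :=
  ∀ a b c, ρ a c ≤ max (ρ a b) (ρ b c)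

/-- `N` is the open ball of positive radius `r` about `1`. -/
def IsBall {H : Type u} [Group H] (ρ : H → H → ℝ) (N : Subgroup H) (r : ℝ) : Prop :=
  0 < r ∧ ∀ x, x ∈ N ↔ ρ x 1 < r

/-- The finitely generated subgroups of `G` are residually finite. -/
def LocallyRF (G : Type u) [Group G] : Prop :=
  ∀ (S : Finset G) (g : Subgroup.closure (S : Set G)), g ≠ 1 →
    ∃ K : Subgroup (Subgroup.closure (S : Set G)), K.Normal ∧ K.FiniteIndex ∧ g ∉ K

/-- Part 1: let `ρ` be a bi-invariant ultrametric on a group `H` such that all quotients `H / N`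
by the open balls `N` about `1` (which are normal subgroups) are weakly sofic.  Then `(H, ρ)` is
isometrically isomorphic to a subgroup of a metric ultraproduct of finite groups with bi-invariant
metrics.  In particular this holds if the finitely generated subgroups of all `H / N` are
residually finite.

Part 2: the following are equivalent: every countable group is weakly sofic; every group with a
bi-invariant ultrametric is isometrically isomorphic to a subgroup of a metric ultraproduct of
finite groups; the same for the countable groups and the ultrametrics bounded by `1`. -/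
theorem result :
    ((∀ (H : Type u) [Group H] (ρ : H → H → ℝ), BiMetric H ρ → Ultra ρ →
        (∀ (N : Subgroup H) [N.Normal] (r : ℝ), IsBall ρ N r → WeaklySofic (H ⧸ N)) →
        EmbedsInFiniteUltraproduct H ρ) ∧
      (∀ (H : Type u) [Group H] (ρ : H → H → ℝ), BiMetric H ρ → Ultra ρ →
        (∀ (N : Subgroup H) [N.Normal] (r : ℝ), IsBall ρ N r → LocallyRF (H ⧸ N)) →
        EmbedsInFiniteUltraproduct H ρ)) ∧
    ((∀ (Q : Type u) [Group Q], Countable Q → WeaklySofic Q) ↔
      ∀ (H : Type u) [Group H] (ρ : H → H → ℝ), BiMetric H ρ → Ultra ρ →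
        EmbedsInFiniteUltraproduct H ρ) ∧
    ((∀ (Q : Type u) [Group Q], Countable Q → WeaklySofic Q) ↔
      ∀ (H : Type u) [Group H], Countable H → ∀ ρ : H → H → ℝ, BiMetric H ρ → Ultra ρ →
        (∀ a b, ρ a b ≤ 1) → EmbedsInFiniteUltraproduct H ρ) := by
  have h1 : ∀ (H : Type u) [Group H] (ρ : H → H → ℝ), BiMetric H ρ → Ultra ρ →
      (∀ (N : Subgroup H) [N.Normal] (r : ℝ), IsBall ρ N r → WeaklySofic (H ⧸ N)) →
      EmbedsInFiniteUltraproduct H ρ := fun H _ ρ hρ hu hs =>
    embeds_ultra hρ hu fun N _ r hr hN => hs N r ⟨hr, hN⟩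
  have h2 : (∀ (Q : Type u) [Group Q], Countable Q → WeaklySofic Q) →
      ∀ (H : Type u) [Group H] (ρ : H → H → ℝ), BiMetric H ρ → Ultra ρ →
        EmbedsInFiniteUltraproduct H ρ := fun h H _ ρ hρ hu =>
    h1 H ρ hρ hu fun N _ _ _ => weaklySofic_of_countable h (H ⧸ N)
  have h3 : (∀ (H : Type u) [Group H], Countable H → ∀ ρ : H → H → ℝ, BiMetric H ρ → Ultra ρ →
      (∀ a b, ρ a b ≤ 1) → EmbedsInFiniteUltraproduct H ρ) →
      ∀ (Q : Type u) [Group Q], Countable Q → WeaklySofic Q := fun h Q _ hQ =>
    weaklySofic_of_embeds (h Q hQ (disc Q) (disc_biMetric Q) disc_ultra disc_le)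
  refine ⟨⟨h1, ?_⟩, ⟨h2, ?_⟩, ⟨?_, h3⟩⟩
  · intro H _ ρ hρ hu hs
    exact h1 H ρ hρ hu fun N _ r hN => weaklySofic_of_rf (hs N r hN)
  · intro h
    exact h3 fun H _ _ ρ hρ hu _ => h H ρ hρ hu
  · intro h H _ _ ρ hρ hu _
    exact h2 h H ρ hρ hu

end Pool.Agent.Results.MP_064e8c_al.UltrametricGroups
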